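import Pool.Agent.Q225.TB.Chain

/-!
# The type B Poincare polynomials `B_n` are real-rooted

`A_n` (type A, Keel's recursion) and `B_n` (type B) are the polynomials of the problem. For every
`n ≥ 1` all complex roots of `B_n` are real, and `B_n` has exactly `n - 1 = deg B_n` distinct roots
in `(-∞, 0)`; in particular the roots are simple.

Outline. Fix `x = -m < 0`. Let `y = 1 + φ(2t)` with `φ` the exponential generating function of the
`A_n(x)`, and let `B(t)` be that of the `B_n(x)`. With `s = (1 + m)/B - m` one has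
`(m + s^2) y = (1 + m)(1 + m (φ(2t) - 2t))`, and the `n`-th derivative of `B` is
`± (1 + m)^{n+1} s p_n(s) / (y^n (m + s^2)^{2n-1} (m + s)^{n+1})` for polynomials `p_n` of degree
`3(n - 1)` given by a linear first order recursion in `s`; so `B_n(-m) = ± p_n(1)/(1 + m)^{2n-1}`.
By Rolle's theorem `p_n` has at least `n - 1` positive roots. On the imaginary axis the imaginary
part of `p_n(iσ)(m - iσ)^{n+1}` is `-σ l_n(σ²)/2` with `l_n > 0` on `[0, ∞)`, and the argument
principle shows that `p_n` has at most `n - 1` roots in the right half plane. Hence all these roots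
are positive and simple and `p_{n-1} p_{n+1} < 0` at the positive roots of `p_n`; so the `B_n(-m)`
form a Sturm chain on `m > 0`.
-/

set_option autoImplicit false

namespace Pool.Agent.Results.MP_fe439f_co.RealRooted

open Polynomial Finset Pool.Agent.Q225.TB

/-- **The type B Poincare polynomials are real-rooted.** The first two parts say that the sequences
`A` and `B` (defined in `Pool.Agent.Q225.TB.Defs` by the same recursions) satisfy the recursions of
the problem, which determine them. -/
theorem result :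
    (A 0 = 1 ∧ A 1 = 1 ∧ ∀ n, 2 ≤ n → A n = A (n - 1) + X * ∑ k ∈ Icc 1 (n - 2),
      (((n - 1).choose (k - 1) : ℕ) : ℤ[X]) * A (n - k) * A k) ∧
    (B 0 = 1 ∧ ∀ n, B (n + 1) = B n
      + X * ∑ i ∈ range n, ((n.choose i : ℕ) : ℤ[X]) * B (n - i) * B i
      + X * ∑ m ∈ Icc 1 (n - 1),
        ((n.choose (m - 1) : ℕ) : ℤ[X]) * 2 ^ (n + 1 - m) * A (n + 1 - m) * B m) ∧
    ∀ n, 1 ≤ n → (∀ z : ℂ, aeval z (B n) = 0 → z.im = 0) ∧
      (B n).natDegree = n - 1 ∧
      {x : ℝ | x < 0 ∧ aeval x (B n) = 0}.ncard = n - 1 := by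
  refine ⟨⟨A_zero, A_one, ?_⟩, ⟨B_zero, ?_⟩, ?_⟩
  · intro n hn
    obtain ⟨n, rfl⟩ : ∃ j, n = j + 2 := ⟨n - 2, by omega⟩
    rw [A_succ]
    congr 2
    refine Finset.sum_nbij' (fun k => k + 1) (fun k => k - 1) ?_ ?_ ?_ ?_ ?_
    · intro k hk; have := Finset.mem_range.1 hk; rw [Finset.mem_Icc]; omega
    · intro k hk; rw [Finset.mem_Icc] at hk; rw [Finset.mem_range]; omega
    · intro k _; exact Nat.add_sub_cancel k 1
    · intro k hk; rw [Finset.mem_Icc] at hk; exact Nat.sub_add_cancel hk.1
    · intro k hk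
      have h1 : n + 2 - (k + 1) = n + 1 - k := by omega
      have h2 : n + 2 - 1 = n + 1 := by omega
      rw [h1, h2, Nat.add_sub_cancel]
      simp
  · intro n
    rw [B_succ]
    congr 2
    · refine Finset.sum_nbij' (fun k => k + 1) (fun k => k - 1) ?_ ?_ ?_ ?_ ?_
      · intro k hk; have := Finset.mem_range.1 hk; rw [Finset.mem_Icc]; omega
      · intro k hk; rw [Finset.mem_Icc] at hk; rw [Finset.mem_range]; omega
      · intro k _; exact Nat.add_sub_cancel k 1
      · intro k hk; rw [Finset.mem_Icc] at hk; exact Nat.sub_add_cancel hk.1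
      · intro k hk
        have h1 : n + 1 - (k + 1) = n - k := by omega
        rw [h1, Nat.add_sub_cancel]
        simp
  · intro n hn
    obtain ⟨n, rfl⟩ : ∃ j, n = j + 1 := ⟨n - 1, by omega⟩
    obtain ⟨h1, h2⟩ := main n
    exact ⟨h1, B_natDegree n, h2⟩

end Pool.Agent.Results.MP_fe439f_co.RealRooted
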